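import Mathlib

/-! Powers of functions which continue from a right half-plane: an abstract frame. -/

set_option autoImplicit false

namespace Pool.Agent.Q246.AT

open Filter Topology

/-- far to the right -/
def R : Filter ℂ := Filter.comap Complex.re atTop

theorem ev_iff {p : ℂ → Prop} : (∀ᶠ s in R, p s) ↔ ∃ c : ℝ, ∀ s : ℂ, c < s.re → p s := by
  unfold R
  rw [Filter.eventually_comap]
  constructor
  · intro h
    obtain ⟨c, hc⟩ := Filter.eventually_atTop.1 h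
    exact ⟨c, fun s hs => hc s.re hs.le s rfl⟩
  · rintro ⟨c, hc⟩
    filter_upwards [Filter.eventually_gt_atTop c] with a ha s hs
    exact hc s (hs ▸ ha)

theorem ev_re (c : ℝ) : ∀ᶠ s : ℂ in R, c < s.re := ev_iff.2 ⟨c, fun _ h => h⟩

/-- a family of functions with integers, closed under products and inverses -/
structure Fam (P : (ℂ → ℂ) → ℤ → Prop) : Prop where
  one : P 1 0
  mul : ∀ F G a b, P F a → P G b → P (F * G) (a + b)
  inv : ∀ F a, P F a → P F⁻¹ (-a)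

theorem Fam.pow {P : (ℂ → ℂ) → ℤ → Prop} (hP : Fam P) {F : ℂ → ℂ} {a : ℤ} (h : P F a) (k : ℕ) :
    P (F ^ k) (k * a) := by
  induction k with
  | zero => rw [pow_zero, Nat.cast_zero, zero_mul]; exact hP.one
  | succ k ih =>
    rw [pow_succ, Nat.cast_add, Nat.cast_one, add_mul, one_mul]
    exact hP.mul _ _ _ _ ih h

/-- a positive power of `L` agrees to the right with a member of the family, with rational index -/
def Has (P : (ℂ → ℂ) → ℤ → Prop) (L : ℂ → ℂ) (r : ℚ) : Prop :=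
  ∃ k : ℕ, 0 < k ∧ ∃ (F : ℂ → ℂ) (e : ℤ), P F e ∧ (e : ℚ) = k * r ∧ ∀ᶠ s in R, F s = L s ^ k

variable {P : (ℂ → ℂ) → ℤ → Prop}

theorem Has.congr {L L' : ℂ → ℂ} {r : ℚ} (h : Has P L r) (hL : ∀ᶠ s in R, L s = L' s) :
    Has P L' r := by
  obtain ⟨k, hk, F, e, h1, h2, h3⟩ := h
  refine ⟨k, hk, F, e, h1, h2, ?_⟩
  filter_upwards [h3, hL] with s h4 h5
  rw [h4, h5]

theorem has_one (hP : Fam P) : Has P 1 0 :=
  ⟨1, one_pos, 1, 0, hP.one, by simp, Eventually.of_forall fun s => by simp⟩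

theorem has_of (h : ℂ → ℂ) {e : ℤ} (hh : P h e) : Has P h e :=
  ⟨1, one_pos, h, e, hh, by simp, Eventually.of_forall fun s => by simp⟩

theorem Has.mul (hP : Fam P) {L L' : ℂ → ℂ} {r r' : ℚ} (h : Has P L r) (h' : Has P L' r') :
    Has P (L * L') (r + r') := by
  obtain ⟨k, hk, F, e, h1, h2, h3⟩ := h
  obtain ⟨l, hl, G, e', h1', h2', h3'⟩ := h'
  refine ⟨k * l, Nat.mul_pos hk hl, F ^ l * G ^ k, l * e + k * e', hP.mul _ _ _ _ (hP.pow h1 l)
    (hP.pow h1' k), ?_, ?_⟩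
  · push_cast
    rw [h2, h2']
    ring
  · filter_upwards [h3, h3'] with s h4 h5
    rw [Pi.mul_apply, Pi.pow_apply, Pi.pow_apply, Pi.mul_apply, h4, h5]
    ring

theorem Has.inv (hP : Fam P) {L : ℂ → ℂ} {r : ℚ} (h : Has P L r) : Has P L⁻¹ (-r) := by
  obtain ⟨k, hk, F, e, h1, h2, h3⟩ := h
  refine ⟨k, hk, F⁻¹, -e, hP.inv _ _ h1, ?_, ?_⟩
  · push_cast
    rw [h2]
    ring
  · filter_upwards [h3] with s h4
    rw [Pi.inv_apply, Pi.inv_apply, h4, inv_pow]

theorem Has.root {L : ℂ → ℂ} {r : ℚ} {m : ℕ} (hm : 0 < m)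
    (h : Has P (L ^ m) (m * r)) : Has P L r := by
  obtain ⟨k, hk, F, e, h1, h2, h3⟩ := h
  refine ⟨m * k, Nat.mul_pos hm hk, F, e, h1, ?_, ?_⟩
  · rw [h2]
    push_cast
    ring
  · filter_upwards [h3] with s h4
    rw [h4, Pi.pow_apply, pow_mul]

/-- the subgroup -/
def sub (hP : Fam P) : Subgroup ((ℂ → ℂˣ) × Multiplicative ℚ) where
  carrier := {x | Has P (fun s => (x.1 s : ℂ)) (Multiplicative.toAdd x.2)}
  one_mem' := by
    exact has_one hP
  mul_mem' := fun {a b} ha hb => by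
    have := Has.mul hP ha hb
    exact this
  inv_mem' := fun {a} ha => by
    have h1 := Has.inv hP ha
    have h2 : (fun s => ((a.1 s : ℂˣ) : ℂ))⁻¹ = fun s => ((a⁻¹.1 s : ℂˣ) : ℂ) := by
      funext s
      simp
    rw [h2] at h1
    exact h1

/-- the quotient -/
def Quo (hP : Fam P) : Type := Additive (((ℂ → ℂˣ) × Multiplicative ℚ) ⧸ sub hP)

noncomputable instance (hP : Fam P) : AddCommGroup (Quo hP) :=
  inferInstanceAs (AddCommGroup (Additive (((ℂ → ℂˣ) × Multiplicative ℚ) ⧸ sub hP)))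

/-- classes -/
def cls (hP : Fam P) (f : ℂ → ℂˣ) (r : ℚ) : Quo hP :=
  Additive.ofMul (QuotientGroup.mk (f, Multiplicative.ofAdd r))

theorem cls_mul (hP : Fam P) (f g : ℂ → ℂˣ) (r r' : ℚ) :
    cls hP (f * g) (r + r') = cls hP f r + cls hP g r' := rfl

theorem cls_zero_iff (hP : Fam P) (f : ℂ → ℂˣ) (r : ℚ) :
    cls hP f r = 0 ↔ Has P (fun s => (f s : ℂ)) r := by
  have h1 : cls hP f r = 0 ↔ (QuotientGroup.mk (f, Multiplicative.ofAdd r) :
      ((ℂ → ℂˣ) × Multiplicative ℚ) ⧸ sub hP) = 1 := Iff.rfl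
  rw [h1, QuotientGroup.eq_one_iff]
  rfl

theorem cls_surj (hP : Fam P) (a : Quo hP) : ∃ f r, cls hP f r = a := by
  obtain ⟨⟨f, r⟩, hu⟩ := QuotientGroup.mk_surjective
    (Additive.toMul a : ((ℂ → ℂˣ) × Multiplicative ℚ) ⧸ sub hP)
  exact ⟨f, Multiplicative.toAdd r, congrArg Additive.ofMul hu⟩

theorem cls_one (hP : Fam P) : cls hP 1 0 = 0 := rfl

theorem cls_pow (hP : Fam P) (f : ℂ → ℂˣ) (r : ℚ) (k : ℕ) :
    cls hP (f ^ k) (k * r) = k • cls hP f r := by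
  induction k with
  | zero => rw [pow_zero, Nat.cast_zero, zero_mul, zero_smul, cls_one]
  | succ k ih =>
    rw [pow_succ, Nat.cast_add, Nat.cast_one, add_mul, one_mul, cls_mul, ih, succ_nsmul]

theorem cls_inv (hP : Fam P) (f : ℂ → ℂˣ) (r : ℚ) : cls hP f⁻¹ (-r) = - cls hP f r := by
  rw [eq_neg_iff_add_eq_zero, ← cls_mul, inv_mul_cancel, neg_add_cancel, cls_one]

theorem tor_free (hP : Fam P) (a : Quo hP) {k : ℕ} (hk : 0 < k) (h : k • a = 0) : a = 0 := by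
  obtain ⟨f, r, rfl⟩ := cls_surj hP a
  rw [← cls_pow, cls_zero_iff] at h
  rw [cls_zero_iff]
  refine Has.root hk ?_
  exact h.congr (Eventually.of_forall fun s => by simp)

theorem cls_congr (hP : Fam P) {f g : ℂ → ℂˣ} (r : ℚ) (h : ∀ᶠ s in R, f s = g s) :
    cls hP f r = cls hP g r := by
  have h1 : cls hP (f * g⁻¹) (r + -r) = 0 := by
    rw [add_neg_cancel, cls_zero_iff]
    refine (has_one hP).congr ?_
    filter_upwards [h] with s hs
    rw [Pi.one_apply, Pi.mul_apply, hs, Pi.inv_apply, mul_inv_cancel, Units.val_one]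
  rw [cls_mul, cls_inv] at h1
  exact add_neg_eq_zero.1 h1

/-- differences of indices -/
theorem cls_index (hP : Fam P) (f : ℂ → ℂˣ) (r r' : ℚ) :
    cls hP f r = cls hP f r' + cls hP 1 (r - r') := by
  rw [← cls_mul, mul_one]
  congr 1
  ring

/-! ### The two examples -/

/-- meromorphic functions on `Ω` -/
def PC (Ω : Set ℂ) (F : ℂ → ℂ) (_ : ℤ) : Prop := MeromorphicOn F Ω

theorem famPC (Ω : Set ℂ) : Fam (PC Ω) :=
  ⟨fun x _ => MeromorphicAt.const 1 x, fun _ _ _ _ h h' x hx => (h x hx).mul (h' x hx),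
    fun _ _ h x hx => (h x hx).inv⟩

/-- meromorphic functions on `Ω` with the order at `s₀` -/
def PO (Ω : Set ℂ) (s₀ : ℂ) (F : ℂ → ℂ) (e : ℤ) : Prop :=
  MeromorphicOn F Ω ∧ MeromorphicAt F s₀ ∧ meromorphicOrderAt F s₀ = e

theorem famPO (Ω : Set ℂ) (s₀ : ℂ) : Fam (PO Ω s₀) := by
  refine ⟨⟨fun x _ => MeromorphicAt.const 1 x, MeromorphicAt.const 1 s₀, ?_⟩, ?_, ?_⟩
  · have : meromorphicOrderAt (1 : ℂ → ℂ) s₀ = 0 := by
      have h1 : (1 : ℂ → ℂ) = fun _ => (1 : ℂ) := rfl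
      rw [h1, meromorphicOrderAt_const, if_neg one_ne_zero]
    exact this
  · rintro F G a b ⟨h1, h2, h3⟩ ⟨h4, h5, h6⟩
    refine ⟨fun x hx => (h1 x hx).mul (h4 x hx), h2.mul h5, ?_⟩
    rw [meromorphicOrderAt_mul h2 h5, h3, h6]
    rfl
  · rintro F a ⟨h1, h2, h3⟩
    refine ⟨fun x hx => (h1 x hx).inv, h2.inv, ?_⟩
    rw [meromorphicOrderAt_inv, h3]
    rfl

/-- functions which agree to the right have equal orders -/
theorem order_unique {Ω : Set ℂ} (hc : IsPreconnected Ω) {s₀ : ℂ} (hs : s₀ ∈ Ω)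
    {c₀ : ℝ} (hsub : {s : ℂ | c₀ < s.re} ⊆ Ω) {F G : ℂ → ℂ} (hF : MeromorphicOn F Ω)
    (hG : MeromorphicOn G Ω) (h : ∀ᶠ s in R, F s = G s) :
    meromorphicOrderAt F s₀ = meromorphicOrderAt G s₀ := by
  obtain ⟨c, hc'⟩ := ev_iff.1 h
  have hD : MeromorphicOn (F - G) Ω := fun x hx => (hF x hx).sub (hG x hx)
  set t : ℂ := ((max c c₀ + 1 : ℝ) : ℂ) with ht
  have htre : t.re = max c c₀ + 1 := Complex.ofReal_re _
  have htΩ : t ∈ Ω := hsub (by
    change c₀ < t.re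
    rw [htre]
    exact (le_max_right c c₀).trans_lt (lt_add_one _))
  have htop : meromorphicOrderAt (F - G) t = ⊤ := by
    rw [meromorphicOrderAt_eq_top_iff]
    have h1 : ∀ᶠ z in 𝓝 t, c < z.re := by
      have : IsOpen {z : ℂ | c < z.re} := isOpen_lt continuous_const Complex.continuous_re
      refine this.mem_nhds ?_
      change c < t.re
      rw [htre]
      exact (le_max_left c c₀).trans_lt (lt_add_one _)
    filter_upwards [h1.filter_mono nhdsWithin_le_nhds] with z hz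
    rw [Pi.sub_apply, hc' z hz, sub_self]
  have htop' : meromorphicOrderAt (F - G) s₀ = ⊤ := by
    by_contra hne
    exact MeromorphicOn.meromorphicOrderAt_ne_top_of_isPreconnected (x := s₀) hD hc hs htΩ hne htop
  rw [meromorphicOrderAt_eq_top_iff] at htop'
  refine meromorphicOrderAt_congr ?_
  filter_upwards [htop'] with z hz
  rw [Pi.sub_apply] at hz
  exact sub_eq_zero.1 hz

/-- uniqueness of the index -/
theorem Has.unique {Ω : Set ℂ} (hc : IsPreconnected Ω) {s₀ : ℂ} (hs : s₀ ∈ Ω)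
    {c₀ : ℝ} (hsub : {s : ℂ | c₀ < s.re} ⊆ Ω) {L : ℂ → ℂ} {r r' : ℚ} (h : Has (PO Ω s₀) L r)
    (h' : Has (PO Ω s₀) L r') : r = r' := by
  obtain ⟨k, hk, F, e, ⟨h1, h2, h3⟩, h4, h5⟩ := h
  obtain ⟨l, hl, G, e', ⟨h1', h2', h3'⟩, h4', h5'⟩ := h'
  have h6 : meromorphicOrderAt (F ^ l) s₀ = meromorphicOrderAt (G ^ k) s₀ := by
    refine order_unique hc hs hsub (fun x hx => (h1 x hx).pow l) (fun x hx => (h1' x hx).pow k) ?_
    filter_upwards [h5, h5'] with s h7 h8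
    rw [Pi.pow_apply, Pi.pow_apply, h7, h8, ← pow_mul, ← pow_mul, mul_comm]
  rw [meromorphicOrderAt_pow h2, meromorphicOrderAt_pow h2', h3, h3'] at h6
  have h7 : (l : ℤ) * e = k * e' := by
    have : (((l : ℤ) * e : ℤ) : WithTop ℤ) = (((k : ℤ) * e' : ℤ) : WithTop ℤ) := by
      push_cast
      exact_mod_cast h6
    exact_mod_cast this
  have h8 : (l : ℚ) * e = k * e' := by exact_mod_cast h7
  rw [h4, h4'] at h8
  have hk' : (k : ℚ) ≠ 0 := by exact_mod_cast hk.ne'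
  have hl' : (l : ℚ) ≠ 0 := by exact_mod_cast hl.ne'
  have h9 : (k : ℚ) * l * r = k * l * r' := by linarith
  exact mul_left_cancel₀ (mul_ne_zero hk' hl') h9

end Pool.Agent.Q246.AT
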