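import Pool.Agent.Q246.DL.Glob
import Pool.Agent.Q246.AT.Cont

/-! Euler products twisted by characters of Galois groups. -/

set_option autoImplicit false
set_option linter.unusedSectionVars false

namespace Pool.Agent.Q246.AT

open Complex Filter Polynomial Topology
open Pool.Agent.Q246.BI Pool.Agent.Q246.DL
open scoped Classical

/-! ### Local factors -/

theorem exp_lt' {d : ℕ} (l : Fin d → ℂ) (hl : ∀ j, ‖l j‖ = 1) {x : ℂ} (hx : ‖x‖ < 1) :
    exp (lt (fun n => ∑ j, l j ^ n) x) = (∏ j, (1 - x * l j))⁻¹ := by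
  have h4 : lt (fun n => ∑ j, l j ^ n) x = ∑ i, -log (1 - x * l i) := (lt_hasSum l hl hx).tsum_eq
  rw [h4, exp_sum, ← Finset.prod_inv_distrib]
  refine Finset.prod_congr rfl fun i _ => ?_
  rw [exp_neg, exp_log]
  intro h
  have h5 : ‖x * l i‖ = 1 := by
    rw [sub_eq_zero] at h
    rw [← h, norm_one]
  rw [norm_mul, hl, mul_one] at h5
  exact hx.ne h5

section
variable {K : Type} [Field K] [NumberField K]

/-- the numbers `l_j` of absolute value one are the eigenvalues at `g` for the character `χ` -/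
def Eig (χ : Gal(AlgebraicClosure K/K) → ℂ) (g : Gal(AlgebraicClosure K/K)) {d : ℕ}
    (l : Fin d → ℂ) : Prop :=
  (∀ j, ‖l j‖ = 1) ∧ ∀ k : ℕ, χ (g ^ k) = ∑ j, l j ^ k

theorem exists_eig {χ : Gal(AlgebraicClosure K/K) → ℂ} (h : IsGalChar χ) :
    ∃ d : ℕ, ∀ g, ∃ l : Fin d → ℂ, Eig χ g l := by
  obtain ⟨d, ρ, hρ, rfl⟩ := artin_of_isGalChar h
  refine ⟨d, fun g => ?_⟩
  obtain ⟨m, hm, h1⟩ := pow_one_of_artin hρ g
  obtain ⟨l, -, h2, -, h3⟩ := eig (ρ g) hm h1
  refine ⟨l, h2, fun k => ?_⟩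
  rw [← h3]
  unfold Representation.character
  rw [map_pow]

theorem Eig.bound {χ : Gal(AlgebraicClosure K/K) → ℂ} {g : Gal(AlgebraicClosure K/K)} {d : ℕ}
    {l : Fin d → ℂ} (h : Eig χ g l) : ‖χ g‖ ≤ d := by
  have h1 := h.2 1
  rw [pow_one] at h1
  rw [h1]
  refine (norm_sum_le _ _).trans ?_
  simp [h.1]

end

/-! ### The norms -/

/-- norms `q_v` of the places -/
structure Norms {V : Type} (q : V → ℕ) : Prop where
  two : ∀ v, 2 ≤ q v
  sum : ∀ σ : ℝ, 1 < σ → Summable fun v => (q v : ℝ) ^ (-σ)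

section
variable {V : Type} {q : V → ℕ}

theorem Norms.pos (hq : Norms q) (v : V) : 0 < q v := lt_of_lt_of_le two_pos (hq.two v)

theorem norm_q (hq : Norms q) (v : V) (s : ℂ) : ‖((q v : ℕ) : ℂ) ^ (-s)‖ = (q v : ℝ) ^ (-s.re) := by
  rw [Complex.norm_natCast_cpow_of_pos (hq.pos v), neg_re]

theorem q_half (hq : Norms q) (v : V) {σ : ℝ} (hσ : 1 ≤ σ) : (q v : ℝ) ^ (-σ) ≤ 1 / 2 := by
  have h2 : (2 : ℝ) ≤ q v := by exact_mod_cast hq.two v
  calc (q v : ℝ) ^ (-σ) ≤ (q v : ℝ) ^ (-1 : ℝ) :=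
        Real.rpow_le_rpow_of_exponent_le (by linarith) (by linarith)
    _ = (q v : ℝ)⁻¹ := Real.rpow_neg_one _
    _ ≤ 1 / 2 := by
        rw [inv_le_comm₀ (by linarith) (by norm_num)]
        linarith

theorem q_diff (hq : Norms q) (v : V) : Differentiable ℂ fun s : ℂ => ((q v : ℕ) : ℂ) ^ (-s) := by
  have h0 : ((q v : ℕ) : ℂ) ≠ 0 := by exact_mod_cast (hq.pos v).ne'
  intro s
  exact (differentiableAt_id.neg).const_cpow (Or.inl h0)

/-- `q_v^{-s}` tends to zero -/
theorem q_tendsto (hq : Norms q) (v : V) : Tendsto (fun s : ℂ => ((q v : ℕ) : ℂ) ^ (-s)) R (𝓝 0) := by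
  rw [tendsto_zero_iff_norm_tendsto_zero]
  have h1 : Tendsto (fun s : ℂ => s.re) R atTop := tendsto_comap
  have h2 : (1 : ℝ) < q v := by
    have := hq.two v
    exact_mod_cast (by omega : 1 < q v)
  have h3 : Tendsto (fun x : ℝ => (q v : ℝ) ^ (-x)) atTop (𝓝 0) := by
    have h4 := tendsto_rpow_atBot_of_base_gt_one (q v : ℝ) h2
    exact h4.comp tendsto_neg_atTop_atBot
  refine (h3.comp h1).congr fun s => ?_
  rw [norm_q hq]
  rfl

end

section
variable {K : Type} [Field K] [NumberField K] {V : Type} (q : V → ℕ) {n : ℕ}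
  (α : V → Fin n → ℂ) (φ : V → Gal(AlgebraicClosure K/K))

/-- the bad places -/
structure Bad (w : ℝ) (S : Set V) : Prop where
  fin : S.Finite
  le : ∀ v ∉ S, ∀ i, ‖α v i‖ ≤ (q v : ℝ) ^ w

/-- the local logarithm -/
noncomputable def hh (S : Set V) (χ : Gal(AlgebraicClosure K/K) → ℂ) (s : ℂ) (v : V) : ℂ :=
  if v ∈ S then 0 else ∑ i, lt (fun k => χ (φ v ^ k)) (α v i * ((q v : ℕ) : ℂ) ^ (-s))

/-- the Euler product over the good places -/
noncomputable def LL (S : Set V) (χ : Gal(AlgebraicClosure K/K) → ℂ) (s : ℂ) : ℂˣ :=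
  Units.mk0 (exp (∑' v, hh q α φ S χ s v)) (exp_ne_zero _)

/-- `P` is the Euler factor at `v` -/
def Good (χ : Gal(AlgebraicClosure K/K) → ℂ) (v : V) (P : ℂ[X]) : Prop :=
  ∃ (d : ℕ) (l : Fin d → ℂ), Eig χ (φ v) l ∧ ∀ z : ℂ, P.eval z = ∏ i, ∏ j, (1 - α v i * z * l j)

/-- Euler factors of the twist -/
structure IsTw (χ : Gal(AlgebraicClosure K/K) → ℂ) (B : V → ℂ[X]) : Prop where
  good : ∀ᶠ v in cofinite, Good α φ χ v (B v)
  ne : ∀ v, (B v).eval 0 ≠ 0

/-- the `L`-function -/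
noncomputable def LF (B : V → ℂ[X]) (s : ℂ) : ℂ :=
  ∏' v : V, ((B v).eval (((q v : ℕ) : ℂ) ^ (-s)))⁻¹

variable {α φ q} {w : ℝ} {S : Set V}

theorem xx_le (hq : Norms q) (hS : Bad q α w S) {v : V} (hv : v ∉ S) (i : Fin n) (s : ℂ) :
    ‖α v i * ((q v : ℕ) : ℂ) ^ (-s)‖ ≤ (q v : ℝ) ^ (-(s.re - w)) := by
  have h1 : (0 : ℝ) < q v := by exact_mod_cast hq.pos v
  rw [norm_mul, norm_q hq]
  calc ‖α v i‖ * (q v : ℝ) ^ (-s.re) ≤ (q v : ℝ) ^ w * (q v : ℝ) ^ (-s.re) :=
        mul_le_mul_of_nonneg_right (hS.le v hv i) (by positivity)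
    _ = (q v : ℝ) ^ (-(s.re - w)) := by
        rw [← Real.rpow_add h1]
        congr 1
        ring

theorem xx_half (hq : Norms q) (hS : Bad q α w S) {v : V} (hv : v ∉ S) (i : Fin n) {s : ℂ}
    (hs : w + 1 < s.re) : ‖α v i * ((q v : ℕ) : ℂ) ^ (-s)‖ ≤ 1 / 2 :=
  (xx_le hq hS hv i s).trans (q_half hq v (by linarith))

theorem hh_summable (hq : Norms q) (hS : Bad q α w S) {χ : Gal(AlgebraicClosure K/K) → ℂ} {C : ℝ}
    (hC : ∀ g, ‖χ g‖ ≤ C) {s : ℂ} (hs : w + 1 < s.re) : Summable (hh q α φ S χ s) := by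
  have hC0 : 0 ≤ C := (norm_nonneg _).trans (hC 1)
  refine Summable.of_norm_bounded ((hq.sum (s.re - w) (by linarith)).mul_left (n * (C * 2)))
    fun v => ?_
  unfold hh
  split_ifs with hv
  · rw [norm_zero]
    positivity
  · refine (norm_sum_le _ _).trans ?_
    have h1 : ∀ i ∈ (Finset.univ : Finset (Fin n)),
        ‖lt (fun k => χ (φ v ^ k)) (α v i * ((q v : ℕ) : ℂ) ^ (-s))‖ ≤
          C * (2 * (q v : ℝ) ^ (-(s.re - w))) := fun i _ =>
      (lt_norm (fun k => hC _) (xx_half hq hS hv i hs)).trans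
        (mul_le_mul_of_nonneg_left (mul_le_mul_of_nonneg_left (xx_le hq hS hv i s) (by norm_num))
          hC0)
    refine (Finset.sum_le_sum h1).trans ?_
    rw [Finset.sum_const, Finset.card_univ, Fintype.card_fin, nsmul_eq_mul]
    apply le_of_eq
    ring

theorem hh_add (hq : Norms q) (hS : Bad q α w S) {χ χ' : Gal(AlgebraicClosure K/K) → ℂ} {C C' : ℝ}
    (hC : ∀ g, ‖χ g‖ ≤ C) (hC' : ∀ g, ‖χ' g‖ ≤ C') {s : ℂ} (hs : w + 1 < s.re) (v : V) :
    hh q α φ S (χ + χ') s v = hh q α φ S χ s v + hh q α φ S χ' s v := by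
  unfold hh
  split_ifs with hv
  · rw [add_zero]
  · rw [← Finset.sum_add_distrib]
    refine Finset.sum_congr rfl fun i _ => ?_
    exact lt_add (fun k => hC _) (fun k => hC' _)
      ((xx_half hq hS hv i hs).trans_lt (by norm_num))

theorem exp_hh (hq : Norms q) (hS : Bad q α w S) {χ : Gal(AlgebraicClosure K/K) → ℂ} {v : V}
    (hv : v ∉ S) {d : ℕ} {l : Fin d → ℂ} (h : Eig χ (φ v) l) {s : ℂ} (hs : w + 1 < s.re) :
    exp (hh q α φ S χ s v) =
      (∏ i, ∏ j, (1 - α v i * ((q v : ℕ) : ℂ) ^ (-s) * l j))⁻¹ := by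
  unfold hh
  rw [if_neg hv, exp_sum, ← Finset.prod_inv_distrib]
  refine Finset.prod_congr rfl fun i _ => ?_
  rw [← exp_lt' l h.1 ((xx_half hq hS hv i hs).trans_lt (by norm_num))]
  simp only [h.2]

theorem LL_add (hq : Norms q) (hS : Bad q α w S) {χ χ' : Gal(AlgebraicClosure K/K) → ℂ}
    (h : IsGalChar χ) (h' : IsGalChar χ') {s : ℂ} (hs : w + 1 < s.re) :
    LL q α φ S (χ + χ') s = LL q α φ S χ s * LL q α φ S χ' s := by
  obtain ⟨d, hd⟩ := exists_eig h
  obtain ⟨d', hd'⟩ := exists_eig h'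
  have hC : ∀ g, ‖χ g‖ ≤ d := fun g => (hd g).choose_spec.bound
  have hC' : ∀ g, ‖χ' g‖ ≤ d' := fun g => (hd' g).choose_spec.bound
  apply Units.ext
  change exp _ = exp _ * exp _
  rw [← exp_add, ← (hh_summable hq hS hC hs).tsum_add (hh_summable hq hS hC' hs)]
  congr 1
  exact tsum_congr fun v => hh_add hq hS hC hC' hs v

/-- **The `L`-function**, up to finitely many Euler factors. -/
theorem LF_eq (hq : Norms q) (hS : Bad q α w S) {χ : Gal(AlgebraicClosure K/K) → ℂ}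
    (h : IsGalChar χ) {B : V → ℂ[X]} (hB : IsTw α φ χ B) :
    ∃ u : ℂ → ℂ, (∀ s, MeromorphicAt u s) ∧
      (∀ᶠ s in R, u s ≠ 0 ∧ LF q B s = u s * LL q α φ S χ s) ∧
      ∀ s₀ : ℂ, w < s₀.re → (∀ v, (B v).eval (((q v : ℕ) : ℂ) ^ (-s₀)) ≠ 0) →
        meromorphicOrderAt u s₀ = 0 := by
  obtain ⟨d, hd⟩ := exists_eig h
  choose l hl using fun v => hd (φ v)
  have hC : ∀ g, ‖χ g‖ ≤ d := fun g => (hd g).choose_spec.bound
  have hfin : ∀ᶠ v in cofinite, v ∉ S ∧ Good α φ χ v (B v) :=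
    hS.fin.eventually_cofinite_notMem.and hB.good
  have hT := Filter.eventually_cofinite.1 hfin
  set T : Finset V := hT.toFinset with hTdef
  have hmem : ∀ v ∉ T, v ∉ S ∧ Good α φ χ v (B v) := by
    intro v hv
    by_contra hc
    exact hv (hT.mem_toFinset.2 hc)
  let b : V → ℂ → ℂ := fun v s => (B v).eval (((q v : ℕ) : ℂ) ^ (-s))
  let g : V → ℂ → ℂ := fun v s =>
    if v ∈ S then 1 else ∏ i, ∏ j, (1 - α v i * ((q v : ℕ) : ℂ) ^ (-s) * l v j)
  have hbd : ∀ v, Differentiable ℂ (b v) := fun v => (B v).differentiable.comp (q_diff hq v)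
  have hgd : ∀ v, Differentiable ℂ (g v) := by
    intro v
    by_cases hv : v ∈ S
    · simp only [g, if_pos hv]
      exact differentiable_const _
    · simp only [g, if_neg hv]
      refine Differentiable.fun_finsetProd fun i _ => Differentiable.fun_finsetProd fun j _ => ?_
      exact (differentiable_const _).sub (((differentiable_const _).mul (q_diff hq v)).mul
        (differentiable_const _))
  have hgexp : ∀ v, ∀ s : ℂ, w + 1 < s.re → exp (hh q α φ S χ s v) = (g v s)⁻¹ := by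
    intro v s hs
    by_cases hv : v ∈ S
    · simp only [g, if_pos hv, inv_one]
      unfold hh
      rw [if_pos hv, exp_zero]
    · simp only [g, if_neg hv]
      exact exp_hh hq hS hv (hl v) hs
  refine ⟨fun s => ∏ v ∈ T, ((b v s)⁻¹ * g v s), ?_, ?_, ?_⟩
  · intro s
    refine MeromorphicAt.fun_prod fun v _ => ?_
    exact (((hbd v).analyticAt s).meromorphicAt.inv).mul ((hgd v).analyticAt s).meromorphicAt
  · have hbne : ∀ᶠ s in R, ∀ v ∈ T, b v s ≠ 0 := by
      rw [Filter.eventually_all_finset]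
      intro v _
      have h1 : Tendsto (b v) R (𝓝 ((B v).eval 0)) :=
        ((B v).continuous.tendsto 0).comp (q_tendsto hq v)
      exact h1.eventually_ne (hB.ne v)
    filter_upwards [hbne, ev_re (w + 1)] with s hbs hs
    have hsum := hh_summable (φ := φ) hq hS hC hs
    have hg0 : ∀ v, g v s ≠ 0 := by
      intro v h0
      have h1 := hgexp v s hs
      rw [h0, inv_zero] at h1
      exact exp_ne_zero _ h1
    refine ⟨Finset.prod_ne_zero_iff.2 fun v hv => mul_ne_zero (inv_ne_zero (hbs v hv)) (hg0 v), ?_⟩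
    have hgood : ∀ v ∉ T, (b v s)⁻¹ = exp (hh q α φ S χ s v) := by
      intro v hv
      obtain ⟨hvS, d', l', hl', hP⟩ := hmem v hv
      rw [exp_hh hq hS hvS hl' hs]
      simp only [b, hP]
    let u : V → ℂ := fun v => if v ∈ T then log ((b v s)⁻¹) else hh q α φ S χ s v
    have hu : ∀ v, exp (u v) = (b v s)⁻¹ := by
      intro v
      by_cases hv : v ∈ T
      · simp only [u, if_pos hv]
        exact exp_log (inv_ne_zero (hbs v hv))
      · simp only [u, if_neg hv]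
        exact (hgood v hv).symm
    have hdz : ∀ v ∉ T, u v - hh q α φ S χ s v = 0 := by
      intro v hv
      simp only [u, if_neg hv, sub_self]
    have hd' : HasSum (fun v => u v - hh q α φ S χ s v)
        (∑ v ∈ T, (u v - hh q α φ S χ s v)) := hasSum_sum_of_ne_finset_zero hdz
    have hus : HasSum u (∑ v ∈ T, (u v - hh q α φ S χ s v) + ∑' v, hh q α φ S χ s v) := by
      have h2 := hd'.add hsum.hasSum
      refine h2.congr_fun fun v => ?_
      ring
    have hprod := hus.cexp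
    have h3 : LF q B s = exp (∑ v ∈ T, (u v - hh q α φ S χ s v) + ∑' v, hh q α φ S χ s v) := by
      unfold LF
      rw [← hprod.tprod_eq]
      exact tprod_congr fun v => (hu v).symm
    rw [h3, exp_add, exp_sum]
    congr 1
    refine Finset.prod_congr rfl fun v _ => ?_
    rw [exp_sub, hu, hgexp v s hs, div_inv_eq_mul]
  · intro s₀ hs₀ hne
    have hgne : ∀ v, g v s₀ ≠ 0 := by
      intro v
      by_cases hv : v ∈ S
      · simp only [g, if_pos hv]
        exact one_ne_zero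
      · simp only [g, if_neg hv]
        refine Finset.prod_ne_zero_iff.2 fun i _ => Finset.prod_ne_zero_iff.2 fun j _ => ?_
        intro h0
        have h1 : ‖α v i * ((q v : ℕ) : ℂ) ^ (-s₀) * l v j‖ = 1 := by
          rw [sub_eq_zero] at h0
          rw [← h0, norm_one]
        rw [norm_mul, (hl v).1, mul_one] at h1
        have h2 := xx_le hq hS hv i s₀
        have h3 : (q v : ℝ) ^ (-(s₀.re - w)) < 1 := by
          apply Real.rpow_lt_one_of_one_lt_of_neg
          · have := hq.two v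
            exact_mod_cast (by omega : 1 < q v)
          · linarith
        rw [h1] at h2
        linarith
    have han : AnalyticAt ℂ (fun s => ∏ v ∈ T, ((b v s)⁻¹ * g v s)) s₀ := by
      refine Finset.analyticAt_fun_prod _ fun v _ => ?_
      exact (((hbd v).analyticAt s₀).fun_inv (hne v)).fun_mul ((hgd v).analyticAt s₀)
    rw [han.meromorphicOrderAt_eq, han.analyticOrderAt_eq_zero.2]
    · rfl
    · refine Finset.prod_ne_zero_iff.2 fun v _ => mul_ne_zero (inv_ne_zero (hne v)) (hgne v)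

end

end Pool.Agent.Q246.AT
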