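import Pool.Agent.Q246.DL.Loc

/-! The Euler factor of a Kronecker product. -/

set_option autoImplicit false

namespace Pool.Agent.Q246.AT

open Polynomial Matrix
open scoped Kronecker

theorem det_kron {m d : ℕ} (M : Matrix (Fin m) (Fin m) ℂ) (T : Matrix (Fin d) (Fin d) ℂ)
    (α : Fin m → ℂ) (hα : ∀ z : ℂ, (1 - z • M).det = ∏ i, (1 - α i * z)) (z : ℂ) :
    (1 - z • (M ⊗ₖ T)).det = ∏ i, (1 - (z * α i) • T).det := by
  set A : Matrix (Fin m) (Fin m) ℂ[X] := 1 - (C z * X) • M.map (C : ℂ → ℂ[X]) with hA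
  have h1 : A.det = ∏ i, (1 - C (z * α i) * X) := by
    apply Polynomial.funext
    intro y
    have h2 : (A.map (Polynomial.eval y)) = 1 - (z * y) • M := by
      ext i j
      simp only [hA, Matrix.map_apply, Matrix.sub_apply, Matrix.smul_apply, smul_eq_mul,
        Polynomial.eval_sub, Polynomial.eval_mul, Polynomial.eval_C, Polynomial.eval_X]
      congr 1
      by_cases hij : i = j
      · rw [hij, Matrix.one_apply_eq, Matrix.one_apply_eq, Polynomial.eval_one]
      · rw [Matrix.one_apply_ne hij, Matrix.one_apply_ne hij, Polynomial.eval_zero]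
    have h3 : Polynomial.eval y A.det = (A.map (Polynomial.eval y)).det := by
      have := RingHom.map_det (Polynomial.evalRingHom y) A
      exact this
    rw [h3, h2, hα, Polynomial.eval_prod]
    refine Finset.prod_congr rfl fun i _ => ?_
    simp only [Polynomial.eval_sub, Polynomial.eval_one, Polynomial.eval_mul, Polynomial.eval_C,
      Polynomial.eval_X]
    ring
  have h4 := Matrix.det_det (M := A) (n := Fin d) (R := ℂ)
    ((aeval T : ℂ[X] →ₐ[ℂ] Matrix (Fin d) (Fin d) ℂ) : ℂ[X] →+* Matrix (Fin d) (Fin d) ℂ)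
  have h5 : (Matrix.comp (Fin m) (Fin m) (Fin d) (Fin d) ℂ)
      (A.map ((aeval T : ℂ[X] →ₐ[ℂ] Matrix (Fin d) (Fin d) ℂ) :
        ℂ[X] →+* Matrix (Fin d) (Fin d) ℂ)) = 1 - z • (M ⊗ₖ T) := by
    ext ⟨i, k⟩ ⟨j, l⟩
    rw [Matrix.comp_apply, Matrix.map_apply, hA]
    simp only [Matrix.sub_apply, Matrix.smul_apply, Matrix.map_apply, smul_eq_mul,
      AlgHom.coe_toRingHom, RingHom.coe_coe, map_sub, map_mul, aeval_C, aeval_X,
      Matrix.kroneckerMap_apply]
    congr 1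
    · by_cases hij : i = j
      · subst hij
        rw [Matrix.one_apply_eq, map_one]
        by_cases hkl : k = l
        · rw [hkl, Matrix.one_apply_eq, Matrix.one_apply_eq]
        · rw [Matrix.one_apply_ne hkl, Matrix.one_apply_ne]
          simpa using hkl
      · rw [Matrix.one_apply_ne hij, map_zero, Matrix.zero_apply, Matrix.one_apply_ne]
        simp [hij]
    · rw [← Algebra.smul_def, ← Algebra.commutes, ← Algebra.smul_def, Matrix.smul_apply,
        Matrix.smul_apply, smul_eq_mul, smul_eq_mul]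
      ring
  rw [h5] at h4
  rw [← h4, h1]
  let g : ℂ[X] →* ℂ := (Matrix.detMonoidHom (n := Fin d) (R := ℂ)).comp
    (((aeval T : ℂ[X] →ₐ[ℂ] Matrix (Fin d) (Fin d) ℂ) : ℂ[X] →+* Matrix (Fin d) (Fin d) ℂ) :
      ℂ[X] →* Matrix (Fin d) (Fin d) ℂ)
  have h6 : ∀ p : ℂ[X], (((aeval T : ℂ[X] →ₐ[ℂ] Matrix (Fin d) (Fin d) ℂ) :
      ℂ[X] →+* Matrix (Fin d) (Fin d) ℂ) p).det = g p := fun p => rfl
  rw [h6, map_prod]
  refine Finset.prod_congr rfl fun i _ => ?_
  rw [← h6]
  congr 1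
  simp only [RingHom.coe_coe, map_sub, map_one, map_mul, aeval_C, aeval_X]
  rw [Algebra.smul_def, map_mul]

/-- the eigenvalues of a matrix of finite order -/
theorem eig_mat {d : ℕ} (T : Matrix (Fin d) (Fin d) ℂ) {k : ℕ} (hk : 0 < k) (hT : T ^ k = 1) :
    ∃ l : Fin d → ℂ, (∀ j, ‖l j‖ = 1) ∧ (∀ c : ℂ, (1 - c • T).det = ∏ j, (1 - c * l j)) ∧
      ∀ e : ℕ, (T ^ e).trace = ∑ j, l j ^ e := by
  have h0 : (Matrix.toLinAlgEquiv' (R := ℂ) (n := Fin d) T) ^ k = 1 := by
    rw [← map_pow, hT, map_one]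
  obtain ⟨l, -, h1, h2, h3⟩ := Pool.Agent.Q246.DL.eig (Matrix.toLinAlgEquiv' T) hk h0
  refine ⟨l, h1, fun c => ?_, fun e => ?_⟩
  · rw [← h2]
    have h4 : (1 - c • Matrix.toLinAlgEquiv' T : Module.End ℂ (Fin d → ℂ)) =
        Matrix.toLin' (1 - c • T) := by
      rw [map_sub, map_smul, Matrix.toLin'_one]
      rfl
    rw [h4, LinearMap.det_toLin']
  · rw [← h3, ← map_pow]
    have h4 : (Matrix.toLinAlgEquiv' (T ^ e) : Module.End ℂ (Fin d → ℂ)) =
        Matrix.toLin' (T ^ e) := rfl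
    rw [h4, Matrix.trace_toLin'_eq]

end Pool.Agent.Q246.AT
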