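import Pool.Agent.Q246.AT.Eul
import Pool.Agent.Q246.DL.Main

/-! Continuation and orders of all Artin twists from special ones. -/

set_option autoImplicit false
set_option linter.unusedSectionVars false

namespace Pool.Agent.Q246.AT

open Complex Filter Polynomial Topology
open Pool.Agent.Q246.BI Pool.Agent.Q246.RP
open Pool.Agent.Q246.DL (isGalChar_zero isGalChar_add isGalChar_nsmul)
open scoped Classical

/-! ### The induced characters of totally complex fields -/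

section
variable {K : Type} [Field K] [NumberField K]

theorem indGal_cc {F : IntermediateField K (AlgebraicClosure K)} (hF : IsEmpty (F →+* ℝ))
    (χ : F.fixingSubgroup → ℂ) {c : Gal(AlgebraicClosure K/K)} (hc : IsCC c) :
    indGal F χ c = 0 := by
  unfold indGal
  refine finsum_eq_zero_of_forall_eq_zero fun x => ?_
  refine dif_neg fun h => ?_
  obtain ⟨ι, hι⟩ := hc
  rw [IntermediateField.mem_fixingSubgroup_iff] at h
  have h1 : ∀ y : F, c (x.out y.1) = x.out y.1 := by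
    intro y
    have h2 := h y.1 y.2
    have h3 : x.out ((x.out⁻¹ * c * x.out) y.1) = x.out y.1 := congrArg x.out h2
    rw [mul_assoc, ← AlgEquiv.mul_apply, mul_inv_cancel_left] at h3
    exact h3
  have h4 : ∀ y : F, (starRingEnd ℂ) (ι (x.out y.1)) = ι (x.out y.1) := fun y => by
    rw [← hι, h1]
  have h5 : ∀ y : F, ((ι (x.out y.1)).re : ℂ) = ι (x.out y.1) := fun y =>
    Complex.conj_eq_iff_re.1 (h4 y)
  refine hF.false
    { toFun := fun y => (ι (x.out y.1)).re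
      map_one' := by simp
      map_zero' := by simp
      map_add' := fun a b => by simp
      map_mul' := fun a b => by
        have e1 : ι (x.out (a * b : F).1) = ι (x.out a.1) * ι (x.out b.1) := by
          rw [← map_mul, ← map_mul]
          rfl
        apply Complex.ofReal_injective
        rw [ofReal_mul, h5, h5, h5, e1] }

end

/-! ### Multiplication by a harmless function -/

section
variable {P : (ℂ → ℂ) → ℤ → Prop}

theorem has_mul_iff (hP : Fam P) {u L L' : ℂ → ℂ} (hu : P u 0)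
    (h : ∀ᶠ s in R, u s ≠ 0 ∧ L s = u s * L' s) (r : ℚ) : Has P L r ↔ Has P L' r := by
  constructor
  · intro h1
    have h2 := Has.mul hP (has_of _ (hP.inv _ _ hu)) h1
    rw [neg_zero, Int.cast_zero, zero_add] at h2
    refine h2.congr ?_
    filter_upwards [h] with s hs
    rw [Pi.mul_apply, Pi.inv_apply, hs.2, inv_mul_cancel_left₀ hs.1]
  · intro h1
    have h2 := Has.mul hP (has_of _ hu) h1
    rw [Int.cast_zero, zero_add] at h2
    refine h2.congr ?_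
    filter_upwards [h] with s hs
    rw [Pi.mul_apply, hs.2]

end

section
variable {K : Type} [Field K] [NumberField K] {V : Type} {q : V → ℕ} {n : ℕ}
  {α : V → Fin n → ℂ} {φ : V → Gal(AlgebraicClosure K/K)} {w : ℝ} {S : Set V}
  {P : (ℂ → ℂ) → ℤ → Prop} (hP : Fam P) (μ : (Gal(AlgebraicClosure K/K) → ℂ) → ℚ)

/-- `μ` is additive on characters -/
def Addi (μ : (Gal(AlgebraicClosure K/K) → ℂ) → ℚ) : Prop :=
  ∀ χ χ', IsGalChar χ → IsGalChar χ' → μ (χ + χ') = μ χ + μ χ'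

/-- the class of `L(s, χ)` compared with `μ(χ)` -/
noncomputable def DD (q : V → ℕ) (α : V → Fin n → ℂ) (φ : V → Gal(AlgebraicClosure K/K))
    (S : Set V) (χ : Gal(AlgebraicClosure K/K) → ℂ) : Quo hP :=
  cls hP (LL q α φ S χ) (μ χ)

variable {μ}

theorem DD_add (hq : Norms q) (hS : Bad q α w S) (hμ : Addi μ)
    {χ χ' : Gal(AlgebraicClosure K/K) → ℂ} (h : IsGalChar χ) (h' : IsGalChar χ') :
    DD hP μ q α φ S (χ + χ') = DD hP μ q α φ S χ + DD hP μ q α φ S χ' := by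
  unfold DD
  rw [hμ _ _ h h', ← cls_mul]
  refine cls_congr hP _ ?_
  filter_upwards [ev_re (w + 1)] with s hs
  rw [Pi.mul_apply]
  exact LL_add hq hS h h' hs

theorem DD_nsmul (hq : Norms q) (hS : Bad q α w S) (hμ : Addi μ)
    {χ : Gal(AlgebraicClosure K/K) → ℂ} (h : IsGalChar χ) (k : ℕ) :
    DD hP μ q α φ S (k • χ) = k • DD hP μ q α φ S χ := by
  induction k with
  | zero =>
    rw [zero_smul, zero_smul]
    have h1 := DD_add (φ := φ) hP hq hS hμ isGalChar_zero isGalChar_zero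
    rw [add_zero] at h1
    exact left_eq_add.1 h1
  | succ k ih => rw [succ_nsmul, DD_add hP hq hS hμ (isGalChar_nsmul h k) h, ih, succ_nsmul]

/-- equal signatures -/
theorem law (hq : Norms q) (hS : Bad q α w S) (hμ : Addi μ) {N : ℕ} (hN : 0 < N)
    (hD : ∀ f ∈ GenV K N, IsGalChar f → Has P (fun s => (LL q α φ S f s : ℂ)) (μ f))
    {χ₁ χ₂ : Gal(AlgebraicClosure K/K) → ℂ} (h₁ : IsGalChar χ₁) (h₂ : IsGalChar χ₂)
    (heq : ∀ c, IsCC c → χ₁ c = χ₂ c) : DD hP μ q α φ S χ₁ = DD hP μ q α φ S χ₂ := by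
  obtain ⟨k, hk, h3⟩ := conj_additive (DD hP μ q α φ S)
    (fun χ χ' a b => DD_add hP hq hS hμ a b) hN
    (fun f hf hfc => (cls_zero_iff hP _ _).2 (hD f hf hfc)) h₁ h₂ heq
  have h4 : k • (DD hP μ q α φ S χ₁ - DD hP μ q α φ S χ₂) = 0 := by
    rw [smul_sub, h3, sub_self]
  exact sub_eq_zero.1 (tor_free hP _ hk h4)

/-- characters with constant integral values at the complex conjugations -/
theorem law_const (hq : Norms q) (hS : Bad q α w S) (hμ : Addi μ) {N : ℕ} (hN : 0 < N)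
    (hD : ∀ f ∈ GenV K N, IsGalChar f → Has P (fun s => (LL q α φ S f s : ℂ)) (μ f))
    {χ χ₀ : Gal(AlgebraicClosure K/K) → ℂ} (h : IsGalChar χ) (h₀ : IsGalChar χ₀) {t t₀ : ℤ}
    (ht : ∀ c, IsCC c → χ c = t) (ht₀ : ∀ c, IsCC c → χ₀ c = t₀) :
    t₀ • DD hP μ q α φ S χ = t • DD hP μ q α φ S χ₀ := by
  obtain ⟨a, b, hab⟩ : ∃ a b : ℕ, t₀ = (a : ℤ) - b := ⟨t₀.toNat, (-t₀).toNat, by omega⟩
  obtain ⟨e, f, hef⟩ : ∃ e f : ℕ, t = (e : ℤ) - f := ⟨t.toNat, (-t).toNat, by omega⟩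
  have h1 := law (φ := φ) hP hq hS hμ hN hD
    (isGalChar_add (isGalChar_nsmul h a) (isGalChar_nsmul h₀ f))
    (isGalChar_add (isGalChar_nsmul h b) (isGalChar_nsmul h₀ e)) (fun c hc => by
      rw [Pi.add_apply, Pi.add_apply, Pi.smul_apply, Pi.smul_apply, Pi.smul_apply, Pi.smul_apply,
        nsmul_eq_mul, nsmul_eq_mul, nsmul_eq_mul, nsmul_eq_mul, ht c hc, ht₀ c hc, hab, hef]
      push_cast
      ring)
  rw [DD_add hP hq hS hμ (isGalChar_nsmul h a) (isGalChar_nsmul h₀ f),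
    DD_add hP hq hS hμ (isGalChar_nsmul h b) (isGalChar_nsmul h₀ e),
    DD_nsmul hP hq hS hμ h, DD_nsmul hP hq hS hμ h, DD_nsmul hP hq hS hμ h₀,
    DD_nsmul hP hq hS hμ h₀] at h1
  rw [hab, hef, sub_smul, sub_smul, natCast_zsmul, natCast_zsmul, natCast_zsmul, natCast_zsmul,
    sub_eq_sub_iff_add_eq_add, h1]
  abel

/-- the integers in the quotient -/
def idx : ℚ →+ Quo hP where
  toFun r := cls hP 1 r
  map_zero' := cls_one hP
  map_add' a b := by rw [← cls_mul, one_mul]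

theorem cls_add_idx (f : ℂ → ℂˣ) (r y : ℚ) : cls hP f (r + y) = cls hP f r + idx hP y := by
  change _ = _ + cls hP 1 y
  rw [← cls_mul, mul_one]

theorem zero_of_zsmul {a : Quo hP} {t : ℤ} (ht : t ≠ 0) (h : t • a = 0) : a = 0 := by
  have h1 : t.natAbs • a = 0 := by
    rcases Int.natAbs_eq t with h2 | h2
    · rw [h2, natCast_zsmul] at h
      exact h
    · rw [h2, neg_smul, natCast_zsmul, neg_eq_zero] at h
      exact h
  exact tor_free hP a (Int.natAbs_pos.2 ht) h1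

include hP in
/-- **The law**: one unbalanced twist determines all. -/
theorem law_has (hq : Norms q) (hS : Bad q α w S) (hμ : Addi μ) {N : ℕ} (hN : 0 < N)
    (hD : ∀ f ∈ GenV K N, IsGalChar f → Has P (fun s => (LL q α φ S f s : ℂ)) (μ f))
    {χ χ₀ : Gal(AlgebraicClosure K/K) → ℂ} (h : IsGalChar χ) (h₀ : IsGalChar χ₀) {t t₀ : ℤ}
    (ht : ∀ c, IsCC c → χ c = t) (ht₀ : ∀ c, IsCC c → χ₀ c = t₀) (hne : t₀ ≠ 0) {r₀ : ℚ}
    (hr₀ : Has P (fun s => (LL q α φ S χ₀ s : ℂ)) r₀) :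
    Has P (fun s => (LL q α φ S χ s : ℂ)) (μ χ + t / t₀ * (r₀ - μ χ₀)) := by
  rw [← cls_zero_iff hP] at hr₀ ⊢
  have h1 := law_const (φ := φ) hP hq hS hμ hN hD h h₀ ht ht₀
  have h2 : DD hP μ q α φ S χ₀ = idx hP (μ χ₀ - r₀) := by
    have := cls_add_idx hP (LL q α φ S χ₀) r₀ (μ χ₀ - r₀)
    rw [hr₀, zero_add, add_sub_cancel] at this
    exact this
  refine zero_of_zsmul hP hne ?_
  rw [cls_add_idx, smul_add]
  change t₀ • DD hP μ q α φ S χ + _ = 0
  rw [h1, h2, ← map_zsmul, ← map_zsmul, ← map_add]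
  have h3 : (t • (μ χ₀ - r₀) + t₀ • ((t : ℚ) / t₀ * (r₀ - μ χ₀)) : ℚ) = 0 := by
    rw [zsmul_eq_mul, zsmul_eq_mul]
    have : (t₀ : ℚ) ≠ 0 := by exact_mod_cast hne
    field_simp
    ring
  rw [h3, map_zero]

include hP in
theorem law_balanced (hq : Norms q) (hS : Bad q α w S) (hμ : Addi μ) {N : ℕ} (hN : 0 < N)
    (hD : ∀ f ∈ GenV K N, IsGalChar f → Has P (fun s => (LL q α φ S f s : ℂ)) (μ f))
    {χ : Gal(AlgebraicClosure K/K) → ℂ} (h : IsGalChar χ) (ht : ∀ c, IsCC c → χ c = 0) :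
    Has P (fun s => (LL q α φ S χ s : ℂ)) (μ χ) := by
  rw [← cls_zero_iff hP]
  have h1 := law (φ := φ) hP hq hS hμ hN hD h isGalChar_zero (fun c hc => by rw [ht c hc]; rfl)
  have h2 := DD_nsmul (φ := φ) hP hq hS hμ (isGalChar_zero (K := K)) 0
  rw [zero_smul, zero_smul] at h2
  rw [h2] at h1
  exact h1

include hP in
theorem law_quot (hq : Norms q) (hS : Bad q α w S) (hμ : Addi μ) {N : ℕ} (hN : 0 < N)
    (hD : ∀ f ∈ GenV K N, IsGalChar f → Has P (fun s => (LL q α φ S f s : ℂ)) (μ f))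
    {χ₁ χ₂ : Gal(AlgebraicClosure K/K) → ℂ} (h₁ : IsGalChar χ₁) (h₂ : IsGalChar χ₂)
    (heq : ∀ c, IsCC c → χ₁ c = χ₂ c) :
    Has P (fun s => (LL q α φ S χ₁ s : ℂ) / (LL q α φ S χ₂ s : ℂ)) (μ χ₁ - μ χ₂) := by
  have h3 := law (φ := φ) hP hq hS hμ hN hD h₁ h₂ heq
  have h4 : cls hP (LL q α φ S χ₁ * (LL q α φ S χ₂)⁻¹) (μ χ₁ + -μ χ₂) = 0 := by
    rw [cls_mul, cls_inv]
    exact add_neg_eq_zero.2 h3
  rw [cls_zero_iff, ← sub_eq_add_neg] at h4
  refine h4.congr (Eventually.of_forall fun s => ?_)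
  rw [Pi.mul_apply, Pi.inv_apply, Units.val_mul, Units.val_inv_eq_inv_val, div_eq_mul_inv]

/-! ### The `L`-functions -/

theorem has_LF_PC (hq : Norms q) (hS : Bad q α w S) {χ : Gal(AlgebraicClosure K/K) → ℂ}
    (h : IsGalChar χ) {B : V → ℂ[X]} (hB : IsTw α φ χ B) (Ω : Set ℂ) (r : ℚ) :
    Has (PC Ω) (LF q B) r ↔ Has (PC Ω) (fun s => (LL q α φ S χ s : ℂ)) r := by
  obtain ⟨u, h1, h2, -⟩ := LF_eq (φ := φ) hq hS h hB
  exact has_mul_iff (famPC Ω) (u := u) (fun x _ => h1 x) h2 r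

theorem has_LF_PO (hq : Norms q) (hS : Bad q α w S) {χ : Gal(AlgebraicClosure K/K) → ℂ}
    (h : IsGalChar χ) {B : V → ℂ[X]} (hB : IsTw α φ χ B) (Ω : Set ℂ) {s₀ : ℂ} (hs₀ : w < s₀.re)
    (hne : ∀ v, (B v).eval (((q v : ℕ) : ℂ) ^ (-s₀)) ≠ 0) (r : ℚ) :
    Has (PO Ω s₀) (LF q B) r ↔ Has (PO Ω s₀) (fun s => (LL q α φ S χ s : ℂ)) r := by
  obtain ⟨u, h1, h2, h3⟩ := LF_eq (φ := φ) hq hS h hB
  exact has_mul_iff (famPO Ω s₀) (u := u) ⟨fun x _ => h1 x, h1 s₀, h3 s₀ hs₀ hne⟩ h2 r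

end

end Pool.Agent.Q246.AT
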